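import Pool.Agent.Helper29.Twi.Pow

/-!
# The vorticity twists within the distance `(T - t)^(2/5)` of every point where it is maximal

Let `(u, p)` be a smooth `1`-periodic solution of the Euler equations on `[0, T)` and `ω` its
vorticity. The rate of stretching of the vorticity at `x` is the principal value integral of
`3 / (4 π |y|^3)` times the twist `(ξ · ŷ) (ω(x + y) · (ξ × ŷ))`, where `ξ` is the direction of `ω(x)` and
`ŷ = y / |y|`. The theorem needs a one-sided bound of the twist only, at one point `x` of maximal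
vorticity for almost every time `t` near `T`, and only in a ball around it with the radius of the
scale `(T - t)^(2/5)` at which the conservation of the energy controls the rest of the integral; no
bound of the velocity is required.

A type I singularity (`|∇u| ≤ C / (T - t)`) is excluded if the twist in the ball of radius
`(T - t)^(2/5) / c` is at most `c / ((T - t) |log (T - t)|) + c (T - t)^(-1 - 2δ/5) |y|^δ`, where
`c > 0` depends on `C`, the energy and `δ ∈ (0, 1]`. A singularity with any power rate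
`|∇u| ≤ C (T - t)^(-b)`, `b > 1`, is excluded in a similar way.
-/

set_option autoImplicit false

open MeasureTheory Set

namespace Pool.Agent.Results.MP_b0497c_an.LocalTwist

open Pool.Agent.H708R2.EulerTypeI Pool.Agent.W734.NS
open H459R3.NS (V pd IsSol energy)

/-- All Sobolev norms of the solution are bounded on `[0, T)`. -/
def Regular (T : ℝ) (u : ℝ → V → V) : Prop :=
  ∀ l ≥ 2, ∃ B : ℝ, ∀ t ∈ Ico 0 T, hn l (u t) ≤ B

/-- There is a point `x` of maximal vorticity of the field `v` with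
`(ω(x) · y) (ω(x + y) · (ω(x) × y)) ≤ |ω(x)|² |y|² (lam + h |y|^δ)` for all `|y| ≤ R`. -/
def SmallTwist (v : V → V) (R lam h δ : ℝ) : Prop :=
  ∃ x, (∀ y, nrm (vort v y) ≤ nrm (vort v x)) ∧
    ∀ y, nrm y ≤ R → (vort v x ⬝ᵥ y) * (vort v (x + y) ⬝ᵥ crossProduct (vort v x) y)
      ≤ nrm (vort v x) ^ 2 * nrm y ^ 2 * (lam + h * nrm y ^ δ)

/-- There is a point `x` of maximal vorticity of the field `v` near which the vorticity is almost
parallel to `ω(x)`: `|ω(x + y) × ω(x)| ≤ |ω(x)| (lam + h |y|^δ)` for all `|y| ≤ R`. -/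
def NearlyParallel (v : V → V) (R lam h δ : ℝ) : Prop :=
  ∃ x, (∀ y, nrm (vort v y) ≤ nrm (vort v x)) ∧
    ∀ y, nrm y ≤ R → nrm (crossProduct (vort v (x + y)) (vort v x))
      ≤ nrm (vort v x) * (lam + h * nrm y ^ δ)

lemma dot_le_nrm (a b : V) : a ⬝ᵥ b ≤ nrm a * nrm b := by
  have ha : 0 ≤ a ⬝ᵥ a := Finset.sum_nonneg fun _ _ => mul_self_nonneg _
  have hb : 0 ≤ b ⬝ᵥ b := Finset.sum_nonneg fun _ _ => mul_self_nonneg _
  rw [nrm, nrm, ← Real.sqrt_mul ha]
  refine Real.le_sqrt_of_sq_le ?_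
  have h1 := Finset.sum_mul_sq_le_sq_mul_sq Finset.univ a b
  simp only [dotProduct] at *
  refine h1.trans (le_of_eq ?_)
  simp only [sq]

lemma parallel_twist {v : V → V} {R lam h δ : ℝ} (hv : NearlyParallel v R lam h δ) :
    SmallTwist v R lam h δ := by
  obtain ⟨x, hx, hy⟩ := hv
  refine ⟨x, hx, fun y hyR => ?_⟩
  have h0 := hy y hyR
  set om := vort v x with hom
  set w := vort v (x + y) with hw
  have e1 : w ⬝ᵥ crossProduct om y = crossProduct w om ⬝ᵥ y := by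
    simp [cross_apply, dotProduct, Fin.sum_univ_three]
    ring
  have n1 : 0 ≤ nrm om := Real.sqrt_nonneg _
  have n2 : 0 ≤ nrm y := Real.sqrt_nonneg _
  have n3 : 0 ≤ nrm (crossProduct w om) := Real.sqrt_nonneg _
  have a1 : |om ⬝ᵥ y| ≤ nrm om * nrm y := by
    refine abs_le.2 ⟨?_, dot_le_nrm om y⟩
    have h2 := dot_le_nrm (-om) y
    have h3 : nrm (-om) = nrm om := by simp [nrm]
    rw [h3, neg_dotProduct] at h2
    linarith
  have a2 : |crossProduct w om ⬝ᵥ y| ≤ nrm (crossProduct w om) * nrm y := by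
    refine abs_le.2 ⟨?_, dot_le_nrm _ y⟩
    have h2 := dot_le_nrm (-crossProduct w om) y
    have h3 : nrm (-crossProduct w om) = nrm (crossProduct w om) := by
      simp only [nrm, neg_dotProduct, dotProduct_neg, neg_neg]
    rw [h3, neg_dotProduct] at h2
    linarith
  rw [e1]
  calc (om ⬝ᵥ y) * (crossProduct w om ⬝ᵥ y) ≤ |om ⬝ᵥ y| * |crossProduct w om ⬝ᵥ y| := by
        rw [← abs_mul]
        exact le_abs_self _
    _ ≤ (nrm om * nrm y) * (nrm (crossProduct w om) * nrm y) := by gcongr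
    _ ≤ (nrm om * nrm y) * ((nrm om * (lam + h * nrm y ^ δ)) * nrm y) := by gcongr
    _ = nrm om ^ 2 * nrm y ^ 2 * (lam + h * nrm y ^ δ) := by ring

/-- (1) Type I: for all `C`, `E` and `0 < δ ≤ 1` there is `c > 0` such that a smooth periodic solution
of the Euler equations on `[0, T)` with the energy at most `E` and with
`|∂ⱼuᵢ(t, x)| ≤ C / (T - t)` for `t ∈ [t₀, T)` is regular up to the time `T` if for almost every
`t ∈ (t₀, T)` the twist at a point of maximal vorticity is small with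
`R = (T - t)^(2/5) / c`, `lam = c / ((T - t) |log (T - t)|)`, `h = c (T - t)^(-1 - 2δ/5)`.
(2) Power rates: the same for `|∂ⱼuᵢ(t, x)| ≤ C (T - t)^(-b)`, `b > 1` arbitrary, with
`R = (T - t)^q`, `q < 2/5` arbitrary, `lam = c (T - t)^(b - 2)` and the same `h`; here `c` depends
also on `b` and `q`.
(3) The general criterion, for arbitrary bounds `|∂ⱼuᵢ(t, x)| ≤ g(t)` and radii `r ≤ 1` and `R`: it
suffices that `r^(-5/2)`, `lam (1 + ∫ g)`, `h r^δ` and, for some natural number `k`, `g (r/R)^k` are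
integrable on `(t₀, T)`.
(4) The twist is small if the vorticity is nearly parallel. -/
theorem result :
    -- (1) type I
    (∀ C E δ : ℝ, 0 < δ → δ ≤ 1 → ∃ c : ℝ, 0 < c ∧
      ∀ (T t₀ : ℝ) (u : ℝ → V → V) (p : ℝ → V → ℝ),
        IsSol 0 T u p → t₀ ∈ Ico 0 T → energy (u 0) ≤ E →
        (∀ t ∈ Ico t₀ T, ∀ i j x, |pd j (fun y => u t y i) x| ≤ C / (T - t)) →
        (∀ᵐ t, t ∈ Ioo t₀ T → SmallTwist (u t) ((T - t) ^ (2 / 5 : ℝ) / c)
          (c / ((T - t) * |Real.log (T - t)|)) (c * (T - t) ^ (-(1 + 2 * δ / 5))) δ) →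
        Regular T u) ∧
    -- (2) power rates
    (∀ C E δ b q : ℝ, 0 < δ → δ ≤ 1 → 1 < b → q < 2 / 5 → ∃ c : ℝ, 0 < c ∧
      ∀ (T t₀ : ℝ) (u : ℝ → V → V) (p : ℝ → V → ℝ),
        IsSol 0 T u p → t₀ ∈ Ico 0 T → energy (u 0) ≤ E →
        (∀ t ∈ Ico t₀ T, ∀ i j x, |pd j (fun y => u t y i) x| ≤ C * (T - t) ^ (-b)) →
        (∀ᵐ t, t ∈ Ioo t₀ T → SmallTwist (u t) ((T - t) ^ q)
          (c * (T - t) ^ (b - 2)) (c * (T - t) ^ (-(1 + 2 * δ / 5))) δ) →
        Regular T u) ∧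
    -- (3) the general criterion
    (∀ (T t₀ δ : ℝ) (k : ℕ) (u : ℝ → V → V) (p : ℝ → V → ℝ) (g lam h r R : ℝ → ℝ),
      IsSol 0 T u p → t₀ ∈ Ico 0 T → 0 < δ → δ ≤ 1 → 1 ≤ k →
      ContinuousOn g (Ico t₀ T) → ContinuousOn lam (Ico t₀ T) → ContinuousOn h (Ico t₀ T) →
      ContinuousOn r (Ico t₀ T) → ContinuousOn R (Ico t₀ T) →
      (∀ t ∈ Ico t₀ T, 0 ≤ lam t) → (∀ t ∈ Ico t₀ T, 0 ≤ h t) →
      (∀ t ∈ Ico t₀ T, 0 < r t ∧ r t ≤ 1) → (∀ t ∈ Ico t₀ T, 0 < R t) →
      (∀ t ∈ Ico t₀ T, ∀ i j x, |pd j (fun y => u t y i) x| ≤ g t) →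
      (∀ᵐ t, t ∈ Ioo t₀ T → SmallTwist (u t) (R t) (lam t) (h t) δ) →
      IntegrableOn (fun t => r t ^ (-(5 / 2) : ℝ)) (Ioo t₀ T) →
      IntegrableOn (fun t => lam t * (1 + ∫ q in t₀..t, g q)) (Ioo t₀ T) →
      IntegrableOn (fun t => h t * r t ^ δ) (Ioo t₀ T) →
      IntegrableOn (fun t => g t * (r t / R t) ^ k) (Ioo t₀ T) →
      Regular T u) ∧
    -- (4) a sufficient condition
    (∀ (v : V → V) (R lam h δ : ℝ), NearlyParallel v R lam h δ → SmallTwist v R lam h δ) := by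
  have key : ∀ {T : ℝ} {u : ℝ → V → V},
      (∀ r : ℕ, ∃ B : ℝ, ∀ t ∈ Ico 0 T, hn (r + 2) (u t) ≤ B) → Regular T u := by
    intro T u h l hl
    obtain ⟨B, hB⟩ := h (l - 2)
    rw [Nat.sub_add_cancel hl] at hB
    exact ⟨B, hB⟩
  refine ⟨?_, ?_, ?_, fun v R lam h δ hv => parallel_twist hv⟩
  · intro C E δ hδ hδ1
    obtain ⟨c, hc, hmain⟩ := Pool.Agent.Helper29.Twi.type_one_tw C E δ hδ hδ1
    exact ⟨c, hc, fun T t₀ u p h ht₀ hE hg hmax => key (hmain T t₀ u p h ht₀ hE hg hmax)⟩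
  · intro C E δ b q hδ hδ1 hb hq
    obtain ⟨c, hc, hmain⟩ := Pool.Agent.Helper29.Twi.power_tw C E δ b q hδ hδ1 hb hq
    exact ⟨c, hc, fun T t₀ u p h ht₀ hE hg hmax => key (hmain T t₀ u p h ht₀ hE hg hmax)⟩
  · intro T t₀ δ k u p g lam h r R hs ht₀ hδ hδ1 hk hgc hlc hhc hrc hRc hl hh hr hR hg hmax i1 i2
      i3 i4
    exact key (Pool.Agent.Helper29.Twi.twist_gen hs ht₀ hδ hδ1 hk hgc hlc hhc hrc hRc hg hl hh hr
      hR hmax i1 i2 i3 i4)

end Pool.Agent.Results.MP_b0497c_an.LocalTwist
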