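import Pool.Agent.Helper29.Dir.Rates

/-!
# One directional derivative, or one component, of the velocity in a type I singularity

Let `(u, p)` be a smooth `1`-periodic solution of the Euler equations on `[0, T)` and `e` a fixed unit
vector. `Small e (u t) x m` says that at the point `x` EITHER all components of the derivative
`(e · ∇) u` in the direction `e`, OR all components of the gradient `∇ (e · u)` of the component of
the velocity in the direction `e`, are at most `m` in absolute value; which of the two may depend on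
the point `(t, x)`.

The theorem bounds all Sobolev norms `∫ |Δ^l u|²`, `l ≥ 2`, on `[0, T)`, if this holds with
`m = al(t)` near the time `T`, while the whole gradient is at most `g(t)`, and `g`, `al` satisfy a
condition that allows the Beale-Kato-Majda integral `∫ g` to diverge. Thus a type I singularity (and
one with any rate up to `(T - t)^(-3/2)`) is three dimensional: in no direction `e` can one of the two
quantities be smaller by the corresponding power of `T - t`, nor can they alternate.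
-/

set_option autoImplicit false

open MeasureTheory Set

namespace Pool.Agent.Results.MP_b0497c_an.OneDirection

open Pool.Agent.W734.NS Pool.Agent.Helper29.Dir
open H459R3.NS (V pd IsSol)

/-- All Sobolev norms of the solution are bounded on `[0, T)`. -/
def Regular (T : ℝ) (u : ℝ → V → V) : Prop :=
  ∀ l ≥ 2, ∃ B : ℝ, ∀ t ∈ Ico 0 T, hn l (u t) ≤ B

/-- Let `(u, p)` be a smooth periodic solution of the Euler equations on `[0, T)`, `0 ≤ t₀ < T` and
`e` a unit vector, and suppose that for all `t ∈ [t₀, T)` and all `x` all `|∂ⱼuᵢ(t, x)| ≤ g(t)` and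
`Small e (u t) x (al t)`.

(1) With `Γ(t) = 1 + ∫ g` over `[t₀, t]`, the solution is regular up to the time `T` if `Γ`, `al Γ`
and `al(t) g(t) ∫ₜᵀ Γ` are integrable on `(t₀, T)`.
(2) Type I: for `g(t) = C / (T - t)` it is enough that `al(t) (1 + |log (T - t)|)` is integrable.
(3) It is enough that `g(t) = C (T - t)^(-β)` and `al(t) = C (T - t)^(-γ)` with `β < 3/2` and
`γ < min(1, 3 - 2β)`. -/
theorem result :
    -- (1) the criterion
    (∀ (T t₀ : ℝ) (u : ℝ → V → V) (p : ℝ → V → ℝ) (e : V) (g al : ℝ → ℝ),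
      IsSol 0 T u p → t₀ ∈ Ico 0 T → e ⬝ᵥ e = 1 →
      ContinuousOn g (Ico t₀ T) → ContinuousOn al (Ico t₀ T) →
      (∀ t ∈ Ico t₀ T, ∀ i j x, |pd j (fun y => u t y i) x| ≤ g t) →
      (∀ t ∈ Ico t₀ T, ∀ x, Small e (u t) x (al t)) →
      IntegrableOn (fun t => 1 + ∫ r in t₀..t, g r) (Ioo t₀ T) →
      IntegrableOn (fun t => al t * (1 + ∫ r in t₀..t, g r)) (Ioo t₀ T) →
      IntegrableOn (fun t => al t * g t * ∫ s in Ioo t T, (1 + ∫ r in t₀..s, g r)) (Ioo t₀ T) →
      Regular T u) ∧
    -- (2) type I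
    (∀ (T t₀ C : ℝ) (u : ℝ → V → V) (p : ℝ → V → ℝ) (e : V) (al : ℝ → ℝ),
      IsSol 0 T u p → t₀ ∈ Ico 0 T → e ⬝ᵥ e = 1 → ContinuousOn al (Ico t₀ T) →
      (∀ t ∈ Ico t₀ T, ∀ i j x, |pd j (fun y => u t y i) x| ≤ C / (T - t)) →
      (∀ t ∈ Ico t₀ T, ∀ x, Small e (u t) x (al t)) →
      IntegrableOn (fun t => al t * (1 + |Real.log (T - t)|)) (Ioo t₀ T) →
      Regular T u) ∧
    -- (3) power rates
    (∀ (T t₀ C β γ : ℝ) (u : ℝ → V → V) (p : ℝ → V → ℝ) (e : V),
      IsSol 0 T u p → t₀ ∈ Ico 0 T → e ⬝ᵥ e = 1 → β < 3 / 2 → γ < 1 → γ < 3 - 2 * β →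
      (∀ t ∈ Ico t₀ T, ∀ i j x, |pd j (fun y => u t y i) x| ≤ C * (T - t) ^ (-β)) →
      (∀ t ∈ Ico t₀ T, ∀ x, Small e (u t) x (C * (T - t) ^ (-γ))) →
      Regular T u) := by
  have key : ∀ {T : ℝ} {u : ℝ → V → V},
      (∀ r : ℕ, ∃ B : ℝ, ∀ t ∈ Ico 0 T, hn (r + 2) (u t) ≤ B) → Regular T u := by
    intro T u h l hl
    obtain ⟨B, hB⟩ := h (l - 2)
    rw [Nat.sub_add_cancel hl] at hB
    exact ⟨B, hB⟩
  refine ⟨?_, ?_, ?_⟩
  · intro T t₀ u p e g al h ht₀ he hgc halc hg halt h1 h2 h3
    exact key (criterion_from h ht₀ he hgc halc hg halt h1 h2 h3)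
  · intro T t₀ C u p e al h ht₀ he halc hg halt hi
    exact key (type_one h ht₀ he halc hg halt hi)
  · intro T t₀ C β γ u p e h ht₀ he hβ hγ1 hγ hg halt
    exact key (power_rates h ht₀ he hβ hγ1 hγ hg halt)

end Pool.Agent.Results.MP_b0497c_an.OneDirection
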