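import Pool.Agent.Helper29.Vis.Exam

/-!
# One row of the Hessian of the pressure suffices if it sees the maximal vorticity

The known criteria for the Euler equations in terms of the Hessian `D²p` of the pressure use all of
it: `∫ (T - t) sup |D²p| dt < ∞`, or `(T - t)² |(D²p) ω| ≤ (2 - κ / log (1/(T-t))) |ω|` with `κ > 3`,
exclude a singularity at the time `T`. Here `P` is a constant `n × 3` matrix, for instance one row
`e`, and only `P (D²p) ω` is controlled (for a row: the derivative of `e · ∇p` in the direction of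
the vorticity), provided that at ONE point of maximal vorticity `ω` is not nearly in the kernel of
`P`: `|P ω| ≥ a |ω|`. All inequalities are relative to the maximum of the vorticity.
-/

set_option autoImplicit false

open MeasureTheory Set
open scoped Topology

namespace Pool.Agent.Results.MP_b0497c_an.VisiblePressure

open Pool.Agent.H708R2.EulerSign Pool.Agent.H708R2.EulerTypeI Pool.Agent.Helper29.Vis

/-- Let `(u, p)` be a `C²` periodic solution of the Euler equations on `[0, T)`, `P` a constant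
`n × 3` matrix and `0 < a ≤ 1`.

(1) Suppose that for almost every `t ∈ (s, T)` there is a point `x` of maximal vorticity with
`|ω(x)| ≤ Λ` or `|P ω(x)| ≥ a |ω(x)|`, and that `|P (D²p) ω| ≤ γ(t) |ω(x)|` everywhere, where
`(T - t) γ(t)` is integrable on `(s, T)`. Then the vorticity is bounded for almost all times, and the
Beale-Kato-Majda integral is finite.
(2) The Beale-Kato-Majda integral is also finite if this holds for all `t` near `T` with
`γ(t) = a (2 - κ / log (1/(T-t))) / (T - t)²`, `κ > 3`.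
(3) The bound `κ > 3` in (2) is sharp: there is a smooth non-periodic solution, linear in `x`, with
an infinite Beale-Kato-Majda integral, for which, with the third row and `a = 1`, the hypothesis of
(2) holds for every `κ < 3`, at all points. -/
theorem result :
    (∀ (n : ℕ) (T s a Λ : ℝ) (u : ℝ → V → V) (p : ℝ → V → ℝ) (P : Matrix (Fin n) (Fin 3) ℝ)
        (γ : ℝ → ℝ),
      IsC2Solution T u p → s ∈ Ioo 0 T → 0 < a → a ≤ 1 → (∀ t ∈ Ioo s T, 0 ≤ γ t) →
      IntegrableOn (fun t => (T - t) * γ t) (Ioo s T) →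
      (∀ᵐ t, t ∈ Ioo s T → ∃ x, Visible u (fun _ _ => P) t a Λ x ∧
        ∀ y, nr (P.mulVec ((hess (p t) y).mulVec (vort (u t) y))) ≤ γ t * nrm (vort (u t) x)) →
      (∃ C : ℝ, (∀ t ∈ Ico s T, ∀ x, nr (P.mulVec (vort (u t) x)) ≤ C) ∧
        ∀ᵐ t, t ∈ Ioo s T → ∀ x, nrm (vort (u t) x) ≤ C) ∧ BKMFinite T u) ∧
    (∀ (n : ℕ) (T a κ Λ : ℝ) (u : ℝ → V → V) (p : ℝ → V → ℝ) (P : Matrix (Fin n) (Fin 3) ℝ),
      0 < T → IsC2Solution T u p → 0 < a → a ≤ 1 → 3 < κ →
      (∀ᶠ t in 𝓝[<] T, ∃ x, Visible u (fun _ _ => P) t a Λ x ∧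
        ∀ y, (T - t) ^ 2 * nr (P.mulVec ((hess (p t) y).mulVec (vort (u t) y)))
          ≤ a * (2 - κ / Real.log (1 / (T - t))) * nrm (vort (u t) x)) →
      (∃ C : ℝ, ∀ᶠ t in 𝓝[<] T, ∀ x,
        nrm (vort (u t) x) ≤ C / ((T - t) * Real.log (1 / (T - t)) ^ (κ / 3))) ∧
      BKMFinite T u) ∧
    (∀ T : ℝ, 0 < T → ∃ (u : ℝ → V → V) (p : ℝ → V → ℝ), IsSpaceSolution T u p ∧
      (∀ t, ∃ A : Matrix (Fin 3) (Fin 3) ℝ, ∀ x, u t x = A.mulVec x) ∧ ¬ BKMFinite T u ∧
      ∀ κ < 3, ∀ᶠ t in 𝓝[<] T, ∀ x, Visible u (fun _ _ => e3) t 1 0 x ∧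
        ∀ y, (T - t) ^ 2 * nr (e3.mulVec ((hess (p t) y).mulVec (vort (u t) y)))
          ≤ 1 * (2 - κ / Real.log (1 / (T - t))) * nrm (vort (u t) x)) := by
  refine ⟨?_, ?_, ?_⟩
  · intro n T s a Λ u p P γ h hs ha ha1 hγ hint hyp
    exact press_integral h hs ha ha1 hγ hint hyp
  · intro n T a κ Λ u p P hT h ha ha1 hκ hyp
    exact press_threshold hT h hκ ha ha1 hyp
  · intro T hT
    exact ⟨uf T, pf T, uf_solution T, fun t => ⟨Af T t, fun x => by rw [uf_eq]⟩, uf_not_bkm hT,
      fun κ hκ => uf_press hT hκ⟩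

end Pool.Agent.Results.MP_b0497c_an.VisiblePressure
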