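import Pool.Agent.Helper29.Vis.Thr

/-!
# A singularity cannot hide the maximal vorticity from a part of the velocity

Let `G(t, x)` be a periodic `C¹` field of `n × 3` matrices (an observer) and `(u, p)` a `C²` periodic
solution of the Euler equations on `[0, T)` with the vorticity `ω`. The observed vorticity `G ω`
changes along the flow with the rate `(DG/Dt + G ∇u) ω`. Examples: a constant row `e`, where
`G ω = e · ω` and the rate is `ω · ∇(u · e)`, so that it contains only one component of the velocity;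
`G = uᵀ`, the helicity density, with the rate `ω · ∇(|u|²/2 - p)`; `G = ∇φ`, with the rate
`ω · ∇(Dφ/Dt)`, which vanishes for the functions `φ` carried along by the flow.

The criterion uses two points at each time: if at one point of maximal vorticity the vorticity is
visible for the observer, `|G ω| ≥ a |ω|`, and at one point where the observed vorticity `|G ω|` is
maximal it grows slowly, then there is no singularity at the time `T`. Nothing is required of the
other components of the velocity. For constant `a` a growth rate of `(1 - κ / log (1/(T-t))) / (T-t)`,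
`κ > 1`, is allowed, and this is sharp.
-/

set_option autoImplicit false

open MeasureTheory Set
open scoped Topology

namespace Pool.Agent.Results.MP_b0497c_an.VisibleVorticity

open Pool.Agent.H708R2.EulerSign Pool.Agent.H708R2.EulerTypeI Pool.Agent.Helper29.Vis

/-- Let `(u, p)` be a `C²` periodic solution of the Euler equations on `[0, T)`.

(1) Let `G` be an observer, `0 < s < T`, `0 < a(t) ≤ 1`, `δ(t) ≥ 0` and `δ / a` integrable on
`(s, b)` for all `b < T`. Suppose that for almost every `t ∈ (s, T)` there are a point `x` of maximal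
vorticity with `|ω(x)| ≤ Λ` or `|G ω (x)| ≥ a(t) |ω(x)|`, and a point `y` where `|G ω|` is maximal
and grows along the flow at most with the rate `δ(t) |ω(x)|`. Then
`|G ω| ≤ C exp ∫ₛᵗ δ/a` and, almost everywhere in time, `|ω| ≤ (C / a) exp ∫ₛᵗ δ/a`, and the
Beale-Kato-Majda integral is finite if `∫ₛᵀ (1 / a) exp (∫ₛᵗ δ/a) dt` is.
(2) In particular it is finite if this holds for all `t` near `T` with a constant `a` and
`δ(t) = a (1 - κ / log (1/(T-t))) / (T - t)`, `κ > 1`.
(3) The rates of the observers `G = P` (constant), `G = uᵀ` and `G = ∇φ`.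
(4) The bound `κ > 1` in (2) is sharp: there is a smooth non-periodic solution, linear in `x`, with
an infinite Beale-Kato-Majda integral, for which, with the third component as observer and `a = 1`,
the hypothesis of (2) holds for every `κ < 1`, at all points `x = y`. -/
theorem result :
    -- (1) the two point criterion
    (∀ (n : ℕ) (T s Λ : ℝ) (u : ℝ → V → V) (p : ℝ → V → ℝ)
        (G : ℝ → V → Matrix (Fin n) (Fin 3) ℝ) (a δ : ℝ → ℝ),
      IsC2Solution T u p → IsField T G → s ∈ Ioo 0 T →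
      (∀ t ∈ Ioo s T, 0 < a t ∧ a t ≤ 1) → (∀ t ∈ Ioo s T, 0 ≤ δ t) →
      (∀ b < T, IntegrableOn (fun t => δ t / a t) (Ioo s b)) →
      (∀ᵐ t, t ∈ Ioo s T → ∃ x y, Visible u G t (a t) Λ x ∧
        SlowAt u G t (δ t * nrm (vort (u t) x)) y) →
      (∃ C : ℝ, (∀ t ∈ Ico s T, ∀ x, nr (obs u G t x) ≤ C * Real.exp (∫ r in s..t, δ r / a r)) ∧
        ∀ᵐ t, t ∈ Ioo s T → ∀ x,
          nrm (vort (u t) x) ≤ C * (Real.exp (∫ r in s..t, δ r / a r) / a t)) ∧
      (∫⁻ t in Ioo s T, ENNReal.ofReal (Real.exp (∫ r in s..t, δ r / a r) / a t) < ⊤ →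
        BKMFinite T u)) ∧
    -- (2) its threshold
    (∀ (n : ℕ) (T a κ Λ : ℝ) (u : ℝ → V → V) (p : ℝ → V → ℝ)
        (G : ℝ → V → Matrix (Fin n) (Fin 3) ℝ),
      0 < T → IsC2Solution T u p → IsField T G → 0 < a → a ≤ 1 → 1 < κ →
      (∀ᶠ t in 𝓝[<] T, ∃ x y, Visible u G t a Λ x ∧
        SlowAt u G t (a * ((1 - κ / Real.log (1 / (T - t))) / (T - t)) * nrm (vort (u t) x)) y) →
      (∃ C : ℝ, ∀ᶠ t in 𝓝[<] T, ∀ x,
        nrm (vort (u t) x) ≤ C / ((T - t) * Real.log (1 / (T - t)) ^ κ)) ∧ BKMFinite T u) ∧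
    -- (3) the rates of some observers
    (∀ (T : ℝ) (u : ℝ → V → V) (p : ℝ → V → ℝ), IsC2Solution T u p → ∀ t ∈ Ioo 0 T, ∀ x,
      (∀ (n : ℕ) (P : Matrix (Fin n) (Fin 3) ℝ),
        rate u (fun _ _ => P) t x = P.mulVec ((grad (u t) x).mulVec (vort (u t) x))) ∧
      rate u (row u) t x 0
        = fderiv ℝ (fun y => (u t y ⬝ᵥ u t y) / 2 - p t y) x (vort (u t) x) ∧
      ∀ φ : ℝ → V → ℝ, ContDiffOn ℝ 2 (fun z : ℝ × V => φ z.1 z.2) (Ioo 0 T ×ˢ univ) →
        rate u (row fun t x j => fderiv ℝ (φ t) x (Pi.single j 1)) t x 0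
          = fderiv ℝ (fun y => deriv (fun s => φ s y) t + fderiv ℝ (φ t) y (u t y)) x
            (vort (u t) x)) ∧
    -- (4) sharpness of the constant in (2)
    (∀ T : ℝ, 0 < T → ∃ (u : ℝ → V → V) (p : ℝ → V → ℝ), IsSpaceSolution T u p ∧
      (∀ t, ∃ A : Matrix (Fin 3) (Fin 3) ℝ, ∀ x, u t x = A.mulVec x) ∧ ¬ BKMFinite T u ∧
      ∀ κ < 1, ∀ᶠ t in 𝓝[<] T, ∀ x, Visible u (fun _ _ => e3) t 1 0 x ∧
        SlowAt u (fun _ _ => e3) t
          (1 * ((1 - κ / Real.log (1 / (T - t))) / (T - t)) * nrm (vort (u t) x)) x) := by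
  refine ⟨?_, ?_, ?_, ?_⟩
  · intro n T s Λ u p G a δ h hG hs ha hδ hint hyp
    exact two_point h hG hs ha hδ hint hyp
  · intro n T a κ Λ u p G hT h hG ha ha1 hκ hyp
    exact two_point_threshold hT h hG ha ha1 hκ hyp
  · intro T u p h t ht x
    exact ⟨fun n P => rate_cst t x, rate_velocity h ht x, fun φ hφ => rate_gradient h hφ ht x⟩
  · intro T hT
    refine ⟨uf T, pf T, uf_solution T, fun t => ⟨Af T t, fun x => by rw [uf_eq]⟩, uf_not_bkm hT,
      fun κ hκ => ?_⟩
    filter_upwards [uf_two_point hT hκ] with t ht x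
    rw [one_mul]
    exact ht x

end Pool.Agent.Results.MP_b0497c_an.VisibleVorticity
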